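import Pool.Agent.W463.LR.Equiv

set_option autoImplicit false

/-!
# The log-rank conjecture and decompositions with limited cancellation

A Boolean matrix `F` of rank `r` that is approximated, up to `1/3` in every entry, by a signed sum
of `s` products `u i x * v i y` whose absolute values add up to at most `K` in every entry has a
deterministic protocol with `O(K (log r + 1)^2 (log (s K) + 1))` bits.  More generally the same is
true when `F` is decided by the ratio of two nonnegative sums of `s` products.  A protocol with `c`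
bits gives a decomposition with `s = 2^c` and without any cancellation, so the log-rank conjecture
holds if and only if every Boolean matrix of rank `r` is approximated by `2^(polylog r)` products
with cancellation `polylog r`.
-/

namespace Pool.Agent.Results.MP_e5d384_lc.LimitedCancellation

/-- `Protocol F c`: a deterministic two-party protocol computes `F` and exchanges exactly `c` bits
(the model of the frozen statement S15531).  The argument of `owner`, `a`, `b`, `out` is the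
transcript so far. -/
def Protocol {X Y : Type} (F : X → Y → Bool) (c : ℕ) : Prop :=
  ∃ (owner : List Bool → Bool) (a : List Bool → X → Bool) (b : List Bool → Y → Bool)
    (out : List Bool → Bool), ∀ x y,
      out (Nat.iterate (fun t : List Bool => t ++ [if owner t then a t x else b t y]) c []) = F x y

/-- `log₂` of the real rank of the communication matrix (`0` for the zero matrix). -/
noncomputable def logRank {X Y : Type} [Fintype Y] (F : X → Y → Bool) : ℝ :=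
  Real.logb 2 ((Matrix.of (fun x y => if F x y then (1 : ℝ) else 0)).rank : ℝ)

/-- `Approx F s K`: up to `1/3` in every entry, `F` is a sum of `s` products of a function of `x`
and a function of `y`, and in every entry the absolute values of the products add up to at most
`K`. -/
def Approx {X Y : Type} (F : X → Y → Bool) (s : ℕ) (K : ℝ) : Prop :=
  ∃ (u : Fin s → X → ℝ) (v : Fin s → Y → ℝ),
    (∀ x y, |∑ i, u i x * v i y - (if F x y then 1 else 0)| ≤ 1 / 3) ∧
    ∀ x y, ∑ i, |u i x * v i y| ≤ K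

/-- `Ratio F s M δ`: there are two sums `P`, `Q` of `s` products of nonnegative functions with
`P ≤ M` and `Q ≤ M`; where `F` is `1`, `P ≥ 1` and `Q ≤ P`; where `F` is `0`,
`(1 + δ) P ≤ Q`. -/
def Ratio {X Y : Type} (F : X → Y → Bool) (s : ℕ) (M δ : ℝ) : Prop :=
  ∃ (a a' : Fin s → X → ℝ) (b b' : Fin s → Y → ℝ),
    (∀ i x, 0 ≤ a i x) ∧ (∀ i y, 0 ≤ b i y) ∧ (∀ i x, 0 ≤ a' i x) ∧ (∀ i y, 0 ≤ b' i y) ∧
    (∀ x y, ∑ i, a i x * b i y ≤ M) ∧ (∀ x y, ∑ i, a' i x * b' i y ≤ M) ∧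
    (∀ x y, F x y = true → 1 ≤ ∑ i, a i x * b i y ∧
      ∑ i, a' i x * b' i y ≤ ∑ i, a i x * b i y) ∧
    ∀ x y, F x y = false → (1 + δ) * ∑ i, a i x * b i y ≤ ∑ i, a' i x * b' i y

/-- The log-rank conjecture (the frozen statement S15531). -/
def LogRankConjecture : Prop :=
  ∃ C k : ℕ, ∀ n : ℕ, ∀ F : (Fin n → ZMod 2) → (Fin n → ZMod 2) → Bool,
    ∃ c : ℕ, Protocol F c ∧ (c : ℝ) ≤ C * logRank F ^ k + C

theorem result :
    (∀ (X Y : Type) [Fintype X] [Fintype Y] (F : X → Y → Bool) (s : ℕ) (K : ℝ), 1 ≤ s → 1 ≤ K →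
      Approx F s K → ∃ c : ℕ, Protocol F c ∧
        (c : ℝ) ≤ 4000 * K * (logRank F + 1) ^ 2 * (Real.logb 2 (s * K) + 1)) ∧
    (∀ (X Y : Type) [Fintype X] [Fintype Y] (F : X → Y → Bool) (s : ℕ) (M δ : ℝ), 1 ≤ s → 1 ≤ M →
      0 < δ → δ ≤ 1 → Ratio F s M δ → ∃ c : ℕ, Protocol F c ∧
        (c : ℝ) ≤ 500 / δ * (logRank F + 1) ^ 2 * (Real.logb 2 (s * M) + 1)) ∧
    (∀ (X Y : Type) (F : X → Y → Bool) (c : ℕ), Protocol F c →
      ∃ (u : Fin (2 ^ c) → X → ℝ) (v : Fin (2 ^ c) → Y → ℝ),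
        (∀ i x, u i x = 0 ∨ u i x = 1) ∧ (∀ i y, v i y = 0 ∨ v i y = 1) ∧
        ∀ x y, ∑ i, u i x * v i y = if F x y then 1 else 0) ∧
    (LogRankConjecture ↔ ∃ C k : ℕ, ∀ n : ℕ, ∀ F : (Fin n → ZMod 2) → (Fin n → ZMod 2) → Bool,
      ∃ (s : ℕ) (K : ℝ), 1 ≤ s ∧ 1 ≤ K ∧ Approx F s K ∧
        Real.logb 2 s ≤ C * logRank F ^ k + C ∧ K ≤ C * logRank F ^ k + C) ∧
    (LogRankConjecture ↔ ∃ C k : ℕ, ∀ n : ℕ, ∀ F : (Fin n → ZMod 2) → (Fin n → ZMod 2) → Bool,
      ∃ (s : ℕ) (M δ : ℝ), 1 ≤ s ∧ 1 ≤ M ∧ 0 < δ ∧ δ ≤ 1 ∧ Ratio F s M δ ∧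
        Real.logb 2 s ≤ C * logRank F ^ k + C ∧ Real.logb 2 M ≤ C * logRank F ^ k + C ∧
        1 / δ ≤ C * logRank F ^ k + C) := by
  have hA : ∀ (X Y : Type) [Fintype X] [Fintype Y] (F : X → Y → Bool) (s : ℕ) (K : ℝ), 1 ≤ s →
      1 ≤ K → Approx F s K → ∃ c : ℕ, Protocol F c ∧
        (c : ℝ) ≤ 4000 * K * (logRank F + 1) ^ 2 * (Real.logb 2 (s * K) + 1) := by
    intro X Y _ _ F s K hs hK ⟨u, v, h1, h2⟩
    exact Pool.Agent.W463.LR.approx_main F s hs u v h1 K hK h2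
  have hB : ∀ (X Y : Type) [Fintype X] [Fintype Y] (F : X → Y → Bool) (s : ℕ) (M δ : ℝ), 1 ≤ s →
      1 ≤ M → 0 < δ → δ ≤ 1 → Ratio F s M δ → ∃ c : ℕ, Protocol F c ∧
        (c : ℝ) ≤ 500 / δ * (logRank F + 1) ^ 2 * (Real.logb 2 (s * M) + 1) := by
    intro X Y _ _ F s M δ hs hM hδ0 hδ1 ⟨a, a', b, b', ha, hb, ha', hb', hP, hQ, h1, h0⟩
    exact Pool.Agent.W463.LR.ratio_main F s hs a a' b b' ha hb ha' hb' δ M hδ0 hδ1 hM h1 h0 hP hQ
  have hC : ∀ (X Y : Type) (F : X → Y → Bool) (c : ℕ), Protocol F c →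
      ∃ (u : Fin (2 ^ c) → X → ℝ) (v : Fin (2 ^ c) → Y → ℝ),
        (∀ i x, u i x = 0 ∨ u i x = 1) ∧ (∀ i y, v i y = 0 ∨ v i y = 1) ∧
        ∀ x y, ∑ i, u i x * v i y = if F x y then 1 else 0 := by
    intro X Y F c h
    exact Pool.Agent.W463.LR.converse F c h
  have hlog : ∀ c : ℕ, Real.logb 2 ((2 ^ c : ℕ) : ℝ) = c := by
    intro c
    push_cast
    rw [Real.logb_pow, Real.logb_self_eq_one (by norm_num), mul_one]
  have hL : ∀ (n : ℕ) (F : (Fin n → ZMod 2) → (Fin n → ZMod 2) → Bool), 0 ≤ logRank F :=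
    fun n F => Pool.Agent.W463.LR.L_nonneg _
  refine ⟨hA, hB, hC, ⟨?_, ?_⟩, ⟨?_, ?_⟩⟩
  · rintro ⟨C, k, h⟩
    refine ⟨C + 1, k, fun n F => ?_⟩
    obtain ⟨c, hc1, hc2⟩ := h n F
    obtain ⟨u, v, hu, hv, huv⟩ := hC _ _ F c hc1
    have hLk : 0 ≤ logRank F ^ k := pow_nonneg (hL n F) k
    have hC0 : (0 : ℝ) ≤ C := Nat.cast_nonneg _
    refine ⟨2 ^ c, 1, Nat.one_le_two_pow, le_rfl, ⟨u, v, fun x y => ?_, fun x y => ?_⟩, ?_, ?_⟩
    · rw [huv x y, sub_self, abs_zero]; norm_num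
    · have e : ∑ i, |u i x * v i y| = ∑ i, u i x * v i y := by
        refine Finset.sum_congr rfl fun i _ => abs_of_nonneg ?_
        rcases hu i x with h | h <;> rcases hv i y with h' | h' <;> (rw [h, h']; norm_num)
      rw [e, huv x y]
      split_ifs <;> norm_num
    · rw [hlog]
      push_cast
      nlinarith
    · push_cast
      nlinarith
  · rintro ⟨C, k, h⟩
    refine ⟨512000 * (C + 1) ^ 2, 2 * k + 2, fun n F => ?_⟩
    obtain ⟨s, K, hs, hK1, hdec, h1, h2⟩ := h n F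
    obtain ⟨c, hc1, hc2⟩ := hA _ _ F s K hs hK1 hdec
    refine ⟨c, hc1, ?_⟩
    have := Pool.Agent.W463.LR.cost_approx (logRank F) K s C c k (Nat.cast_nonneg _) (hL n F) hK1
      (by exact_mod_cast hs) h2 h1 hc2
    push_cast
    exact this
  · rintro ⟨C, k, h⟩
    refine ⟨C + 1, k, fun n F => ?_⟩
    obtain ⟨c, hc1, hc2⟩ := h n F
    obtain ⟨u, v, hu, hv, huv⟩ := hC _ _ F c hc1
    have hLk : 0 ≤ logRank F ^ k := pow_nonneg (hL n F) k
    have hC0 : (0 : ℝ) ≤ C := Nat.cast_nonneg _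
    have hpos : 0 < 2 ^ c := Nat.two_pow_pos c
    have hQ : ∀ x y : Fin n → ZMod 2, ∑ i : Fin (2 ^ c),
        (if i = ⟨0, hpos⟩ then (1 : ℝ) else 0) * 1 = 1 := by
      intro x y
      simp only [mul_one]
      rw [Finset.sum_ite_eq' Finset.univ, if_pos (Finset.mem_univ _)]
    refine ⟨2 ^ c, 1, 1, Nat.one_le_two_pow, le_rfl, one_pos, le_rfl,
      ⟨u, fun i _ => if i = ⟨0, hpos⟩ then 1 else 0, v, fun _ _ => 1, ?_, ?_, ?_, ?_, ?_, ?_, ?_,
        ?_⟩, ?_, ?_, ?_⟩
    · intro i x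
      rcases hu i x with h | h <;> simp [h]
    · intro i y
      rcases hv i y with h | h <;> simp [h]
    · intro i x
      simp only
      split_ifs <;> norm_num
    · intro i y
      norm_num
    · intro x y
      rw [huv x y]
      split_ifs <;> norm_num
    · intro x y
      exact (hQ x y).le
    · intro x y hF
      rw [huv x y, if_pos hF]
      exact ⟨le_rfl, (hQ x y).le⟩
    · intro x y hF
      rw [huv x y, hF]
      have := hQ x y
      simp only [Bool.false_eq_true, if_false, mul_zero]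
      exact this.symm ▸ zero_le_one
    · rw [hlog]
      push_cast
      nlinarith
    · rw [Real.logb_one]
      positivity
    · push_cast
      nlinarith
  · rintro ⟨C, k, h⟩
    refine ⟨512000 * (C + 1) ^ 2, 2 * k + 2, fun n F => ?_⟩
    obtain ⟨s, M, δ, hs, hM, hδ0, hδ1, hdec, h1, h2, h3⟩ := h n F
    obtain ⟨c, hc1, hc2⟩ := hB _ _ F s M δ hs hM hδ0 hδ1 hdec
    refine ⟨c, hc1, ?_⟩
    have := Pool.Agent.W463.LR.cost_ratio (logRank F) δ M s C c k (Nat.cast_nonneg _) (hL n F) hδ0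
      hM (by exact_mod_cast hs) h3 h2 h1 hc2
    push_cast
    exact this

end Pool.Agent.Results.MP_e5d384_lc.LimitedCancellation
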