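import Pool.Agent.W926.LR.Pattern

/-!
# The log-rank conjecture for Boolean matrices omitting a pattern
-/

set_option autoImplicit false

namespace Pool.Agent.Results.MP_e5d384_lc.OmittedPattern

/-- **The log-rank conjecture in every proper hereditary class of Boolean matrices, with exponent 2
and for the rank over any field.**
If some `k × l` Boolean matrix `P` is not a submatrix of `F : X × Y → {0,1}` (rows and columns of
the submatrix in any order), then `F` has a deterministic protocol with at most
`307 · min (l + ⌈log₂ k⌉) (k + ⌈log₂ l⌉) · (log₂ r + 1)²` bits, `r` the rank of the matrix of `F`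
over an arbitrary field `K`. (Protocols exactly as in the frozen statement S15531: `t` is the
transcript so far, `owner t` says who speaks, `c` bits are exchanged, and the answer is a function
of the transcript.) -/
theorem result (K : Type) [Field K] (X Y : Type) [Fintype X] [Fintype Y] (F : X → Y → Bool)
    (k l : ℕ) (P : Fin k → Fin l → Bool)
    (hP : ¬ ∃ (a : Fin k ↪ X) (b : Fin l ↪ Y), ∀ i j, F (a i) (b j) = P i j) :
    ∃ (c : ℕ) (owner : List Bool → Bool) (a : List Bool → X → Bool) (b : List Bool → Y → Bool)
      (out : List Bool → Bool),
      (∀ x y, out (Nat.iterate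
        (fun t : List Bool => t ++ [if owner t then a t x else b t y]) c []) = F x y) ∧
      (c : ℝ) ≤ 307 * ((min (l + Nat.clog 2 k) (k + Nat.clog 2 l) : ℕ) : ℝ) *
        (Real.logb 2
          ((Matrix.of (fun (x : X) (y : Y) => if F x y then (1 : K) else 0)).rank : ℝ) + 1) ^ 2 := by
  obtain ⟨c, ⟨owner, a, b, out, h⟩, hc⟩ := Pool.Agent.W926.LR.omit_min K F P hP
  exact ⟨c, owner, a, b, out, h, hc⟩

end Pool.Agent.Results.MP_e5d384_lc.OmittedPattern
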